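import Mathlib

set_option autoImplicit false

namespace Pool.Agent.H.MP_385527_co

def g1 (t : ℕ) : ℕ := [8, 4, 8, 2, 6, 4, 8, 4, 8, 0, 4, 0, 4, 2, 6, 2, 6].getD t 0
def g2 (t : ℕ) : ℕ := [6, 6, 5, 5, 6, 6, 4, 4, 5, 4, 4, 5, 5, 3, 3, 7, 5].getD t 0
def g3 (t : ℕ) : ℕ := [4, 8, 4, 8, 2, 6, 4, 8, 4, 8, 0, 4, 0, 4, 2, 6, 2].getD t 0

abbrev T3 := ℕ × ℕ × ℕ

def Tr : List T3 := [(0, 0, 0), (0, 1, 2), (0, 2, 4), (0, 4, 8), (0, 6, 12), (0, 8, 16), (1, 1, 1), (1, 3, 5), (1, 4, 7), (1, 5, 9), (1, 6, 11), (1, 7, 13), (1, 8, 15), (2, 1, 0), (2, 3, 4), (2, 4, 6), (2, 5, 8), (2, 6, 10), (2, 7, 12), (2, 8, 14), (3, 2, 1), (3, 3, 3), (3, 9, 15), (4, 2, 0), (4, 3, 2), (4, 9, 14), (4, 10, 16), (5, 4, 3), (5, 9, 13), (6, 4, 2), (6, 9, 12), (6, 11, 16), (7, 4, 1), (7, 5, 3), (7, 9, 11), (7, 10, 13), (7, 11, 15), (8, 4, 0), (8, 5, 2), (8, 9, 10), (8, 10, 12), (8, 11, 14), (8, 12, 16), (9, 6, 3), (9, 9, 9), (10, 6, 2), (10, 9, 8), (10, 13, 16), (11, 6, 1), (11, 7, 3), (11, 9, 7), (11, 10,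 9), (11, 13, 15), (12, 6, 0), (12, 7, 2), (12, 9, 6), (12, 10, 8), (12, 13, 14), (12, 14, 16), (13, 8, 3), (13, 9, 5), (13, 11, 9), (13, 13, 13), (14, 8, 2), (14, 9, 4), (14, 11, 8), (14, 13, 12), (15, 8, 1), (15, 10, 5), (15, 11, 7), (15, 12, 9), (15, 13, 11), (15, 14, 13), (16, 8, 0), (16, 10, 4), (16, 11, 6), (16, 12, 8), (16, 13, 10), (16, 14, 12)]

theorem Tr_len : Tr.length = 79 := by decide +kernel

theorem Tr_nodup : Tr.Nodup := by decide +kernel

theorem Tr_ok : ∀ s ∈ Tr, s.1 < 17 ∧ s.2.1 < 17 ∧ s.2.2 < 17 ∧ s.1 + s.2.2 = 2 * s.2.1 ∧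
    g1 s.1 + g3 s.2.2 = 2 * g2 s.2.1 := by decide +kernel

theorem Tr_inj : ∀ s ∈ Tr, ∀ t ∈ Tr, s.2.1 + t.1 = t.2.1 + s.1 →
    g2 s.2.1 + g1 t.1 = g2 t.2.1 + g1 s.1 → s = t := by decide +kernel

theorem g_le : ∀ t < 17, g1 t ≤ 8 ∧ g2 t ≤ 8 ∧ g3 t ≤ 8 := by decide +kernel

/-- half the length of the level `k` word -/
def lam : ℕ → ℕ
  | 0 => 0
  | k + 1 => 17 * (lam k + 16 * 9 ^ k)

theorem lam_le (k : ℕ) : lam k + 34 * 9 ^ k = 34 * 17 ^ k := by
  induction k with
  | zero => rfl
  | succ k ih => rw [lam, pow_succ, pow_succ]; omega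

def blk (u v : ℕ) : List Bool := List.replicate u true ++ List.replicate v false

theorem blk_len (u v : ℕ) : (blk u v).length = u + v := by simp [blk]
theorem blk_cnt (u v : ℕ) : (blk u v).count true = u := by simp [blk, List.count_replicate]

def cat (g : ℕ → ℕ) (c : ℕ) (w : List Bool) : ℕ → List Bool
  | 0 => []
  | t + 1 => cat g c w t ++ (blk (8 * c + g t * c) (8 * c - g t * c) ++
      (w ++ blk (8 * c - g t * c) (8 * c + g t * c)))

def W (g : ℕ → ℕ) : ℕ → List Bool
  | 0 => []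
  | k + 1 => cat g (9 ^ k) (W g k) 17

theorem cat_len (g : ℕ → ℕ) (hg : ∀ t < 17, g t ≤ 8) (c l : ℕ) (w : List Bool)
    (h1 : w.length = 2 * l) (h2 : w.count true = l) (t : ℕ) (ht : t ≤ 17) :
    (cat g c w t).length = 2 * (t * (l + 16 * c)) ∧ (cat g c w t).count true = t * (l + 16 * c) := by
  induction t with
  | zero => simp [cat]
  | succ t ih =>
    obtain ⟨a, b⟩ := ih (by omega)
    have : g t * c ≤ 8 * c := Nat.mul_le_mul_right c (hg t (by omega))
    simp only [cat, List.length_append, List.count_append, blk_len, blk_cnt, a, b, h1, h2, Nat.succ_mul]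
    omega

theorem W_len (g : ℕ → ℕ) (hg : ∀ t < 17, g t ≤ 8) (k : ℕ) :
    (W g k).length = 2 * lam k ∧ (W g k).count true = lam k := by
  induction k with
  | zero => simp [W, lam]
  | succ k ih => exact cat_len g hg _ _ _ ih.1 ih.2 17 le_rfl

theorem cat_pre (g : ℕ → ℕ) (c : ℕ) (w : List Bool) (s t : ℕ) (h : s ≤ t) :
    cat g c w s <+: cat g c w t := by
  induction t, h using Nat.le_induction with
  | base => exact List.prefix_refl _
  | succ t _ ih => exact ih.trans (List.prefix_append _ _)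

def Q (π : T3 → ℕ) : List T3 → ℕ
  | [] => 0
  | t :: s => π t * (lam s.length + 16 * 9 ^ s.length) + 8 * 9 ^ s.length + Q π s

def O (g : T3 → ℕ) : List T3 → ℕ
  | [] => 0
  | t :: s => g t * 9 ^ s.length + O g s

theorem marked (g : ℕ → ℕ) (hg : ∀ t < 17, g t ≤ 8) (π : T3 → ℕ) (s : List T3)
    (hs : ∀ t ∈ s, π t < 17) : ∃ A : List Bool, A <+: W g s.length ∧ A.length = 2 * Q π s ∧
      A.count true = Q π s + O (fun t => g (π t)) s := by
  induction s with
  | nil => exact ⟨[], List.nil_prefix, rfl, rfl⟩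
  | cons t s ih =>
    obtain ⟨A, ⟨C, hC⟩, h1, h2⟩ := ih (fun u hu => hs u (List.mem_cons_of_mem _ hu))
    have ht := hs t List.mem_cons_self
    obtain ⟨a, b⟩ := W_len g hg s.length
    obtain ⟨a', b'⟩ := cat_len g hg (9 ^ s.length) _ _ a b (π t) ht.le
    have : g (π t) * 9 ^ s.length ≤ 8 * 9 ^ s.length := Nat.mul_le_mul_right _ (hg _ ht)
    refine ⟨cat g (9 ^ s.length) (W g s.length) (π t) ++
      (blk (8 * 9 ^ s.length + g (π t) * 9 ^ s.length) (8 * 9 ^ s.length - g (π t) * 9 ^ s.length) ++ A),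
      ?_, ?_, ?_⟩
    · refine List.IsPrefix.trans ?_ (cat_pre g _ _ (π t + 1) 17 ht)
      rw [cat]
      refine (List.prefix_append_right_inj _).mpr ((List.prefix_append_right_inj _).mpr ?_)
      exact List.IsPrefix.trans ⟨C, hC⟩ (List.prefix_append _ _)
    · simp only [List.length_append, blk_len, a', h1, Q]; omega
    · simp only [List.count_append, blk_cnt, b', h2, Q, O]; omega

theorem Q_le (π : T3 → ℕ) (s : List T3) (hs : ∀ t ∈ s, π t < 17) : Q π s ≤ lam s.length := by
  obtain ⟨A, h, h1, -⟩ := marked (fun _ => 0) (by simp) π s hs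
  have := h.length_le
  rw [(W_len _ (by simp) _).1] at this
  omega

theorem O_lt (g : T3 → ℕ) (s : List T3) (hs : ∀ t ∈ s, g t ≤ 8) : O g s < 9 ^ s.length := by
  induction s with
  | nil => simp [O]
  | cons t s ih =>
    have a := ih (fun u hu => hs u (List.mem_cons_of_mem _ hu))
    have b : g t * 9 ^ s.length ≤ 8 * 9 ^ s.length := Nat.mul_le_mul_right _ (hs t List.mem_cons_self)
    simp only [O, List.length_cons, pow_succ]
    omega

def px (t : T3) : ℕ := t.1
def py (t : T3) : ℕ := t.2.1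
def pz (t : T3) : ℕ := t.2.2
def gx (t : T3) : ℕ := g1 (px t)
def gy (t : T3) : ℕ := g2 (py t)
def gz (t : T3) : ℕ := g3 (pz t)

theorem ap (s : List T3) (hs : ∀ t ∈ s, t ∈ Tr) :
    Q px s + Q pz s = 2 * Q py s ∧ O gx s + O gz s = 2 * O gy s := by
  induction s with
  | nil => simp [Q, O]
  | cons t s ih =>
    obtain ⟨a, b⟩ := ih (fun u hu => hs u (List.mem_cons_of_mem _ hu))
    obtain ⟨-, -, -, c, d⟩ := Tr_ok t (hs t List.mem_cons_self)
    have c' : px t + pz t = 2 * py t := c
    have d' : gx t + gz t = 2 * gy t := d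
    simp only [Q, O]
    constructor
    · have := congrArg (· * (lam s.length + 16 * 9 ^ s.length)) c'
      simp only [add_mul, mul_assoc] at this
      omega
    · have := congrArg (· * 9 ^ s.length) d'
      simp only [add_mul, mul_assoc] at this
      omega

theorem dig (a b r r' B : ℕ) (h : a * B + r = b * B + r') (h1 : r < r' + B) (h2 : r' < r + B) :
    a = b ∧ r = r' := by
  rcases lt_trichotomy a b with p | p | p
  · have : (a + 1) * B ≤ b * B := Nat.mul_le_mul_right _ p
    rw [add_mul] at this; omega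
  · subst p; omega
  · have : (b + 1) * B ≤ a * B := Nat.mul_le_mul_right _ p
    rw [add_mul] at this; omega

theorem bounds (s : List T3) (hs : ∀ t ∈ s, t ∈ Tr) :
    Q px s ≤ lam s.length ∧ Q py s ≤ lam s.length ∧ Q pz s ≤ lam s.length ∧
      O gx s < 9 ^ s.length ∧ O gz s < 9 ^ s.length :=
  ⟨Q_le _ s fun t ht => (Tr_ok t (hs t ht)).1, Q_le _ s fun t ht => (Tr_ok t (hs t ht)).2.1,
    Q_le _ s fun t ht => (Tr_ok t (hs t ht)).2.2.1,
    O_lt _ s fun t ht => (g_le _ (Tr_ok t (hs t ht)).1).1,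
    O_lt _ s fun t ht => (g_le _ (Tr_ok t (hs t ht)).2.2.1).2.2⟩

theorem inj (s : List T3) : ∀ t : List T3, (∀ u ∈ s, u ∈ Tr) → (∀ u ∈ t, u ∈ Tr) →
    s.length = t.length → Q py s + Q px t = Q py t + Q px s → O gy s + O gx t = O gy t + O gx s →
    s = t := by
  induction s with
  | nil => intro t _ _ h _ _; exact (List.length_eq_zero_iff.mp h.symm).symm
  | cons a s ih =>
    intro t hs ht hl h1 h2
    cases t with
    | nil => simp at hl
    | cons b t =>
      have hs' : ∀ u ∈ s, u ∈ Tr := fun u hu => hs u (List.mem_cons_of_mem _ hu)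
      have ht' : ∀ u ∈ t, u ∈ Tr := fun u hu => ht u (List.mem_cons_of_mem _ hu)
      have hl' : s.length = t.length := by simpa using hl
      obtain ⟨a1, a2⟩ := ap s hs'
      obtain ⟨b1, b2⟩ := ap t ht'
      obtain ⟨c1, -, c2, c3, c4⟩ := bounds s hs'
      obtain ⟨d1, -, d2, d3, d4⟩ := bounds t ht'
      simp only [Q, O] at h1 h2
      rw [← hl'] at h1 h2 d1 d2 d3 d4
      have p9 : 0 < 9 ^ s.length := by positivity
      have e1 := dig (py a + px b) (py b + px a) (Q py s + Q px t) (Q py t + Q px s)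
        (lam s.length + 16 * 9 ^ s.length) (by rw [add_mul, add_mul]; omega) (by omega) (by omega)
      have e2 := dig (gy a + gx b) (gy b + gx a) (O gy s + O gx t) (O gy t + O gx s)
        (9 ^ s.length) (by rw [add_mul, add_mul]; omega) (by omega) (by omega)
      rw [Tr_inj a (hs a List.mem_cons_self) b (ht b List.mem_cons_self) e1.1 e2.1,
        ih t hs' ht' hl' e1.2 e2.2]

theorem card_range (w : List Bool) (n : ℕ) :
    ((Finset.range n).filter (fun j => w.getD j false = true)).card = (w.take n).count true := by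
  induction n with
  | zero => simp
  | succ n ih =>
    rw [Finset.range_add_one, Finset.filter_insert, List.take_add_one, List.count_append, ← ih,
      List.getD_eq_getElem?_getD]
    cases h : w[n]? with
    | none => simp
    | some b => cases b <;> simp

theorem card_Ico (w A B : List Bool) (hA : A <+: w) (hB : B <+: w) (h : A.length ≤ B.length) :
    ((Finset.Ico A.length B.length).filter (fun j => w.getD j false = true)).card + A.count true =
      B.count true := by
  have a := card_range w A.length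
  have b := card_range w B.length
  rw [← List.prefix_iff_eq_take.mp hA] at a
  rw [← List.prefix_iff_eq_take.mp hB] at b
  rw [← a, ← b, Finset.range_eq_Ico, Finset.range_eq_Ico, add_comm,
    ← Finset.Ico_union_Ico_eq_Ico (Nat.zero_le _) h, Finset.filter_union,
    Finset.card_union_of_disjoint]
  exact Finset.disjoint_filter_filter (Finset.Ico_disjoint_Ico_consecutive _ _ _)

def word (k : ℕ) : List Bool := W g1 k ++ (W g2 k ++ W g3 k)

def sq (w : List Bool) : Set (ℕ × ℕ) :=
  {p : ℕ × ℕ | ∃ i : ℕ, 1 ≤ p.1 ∧ i + 2 * p.1 ≤ w.length ∧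
    ((Finset.Ico i (i + p.1)).filter (fun j => w.getD j false = true)).card = p.2 ∧
    ((Finset.Ico (i + p.1) (i + 2 * p.1)).filter (fun j => w.getD j false = true)).card = p.2}

theorem sq_finite (w : List Bool) : (sq w).Finite := by
  refine ((Set.finite_Iic w.length).prod (Set.finite_Iic w.length)).subset ?_
  rintro ⟨a, b⟩ ⟨i, -, h2, h3, -⟩
  have := Finset.card_filter_le (Finset.Ico i (i + a)) (fun j => w.getD j false = true)
  simp only [Nat.card_Ico] at this
  simp only [Set.mem_prod, Set.mem_Iic] at *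
  omega

theorem word_len (k : ℕ) : (word k).length = 6 * lam k := by
  simp only [word, List.length_append, (W_len g1 (fun t h => (g_le t h).1) k).1,
    (W_len g2 (fun t h => (g_le t h).2.1) k).1, (W_len g3 (fun t h => (g_le t h).2.2) k).1]
  omega

theorem mem_sq (s : List T3) (hs : ∀ t ∈ s, t ∈ Tr) (h0 : 0 < lam s.length) :
    ∃ p ∈ sq (word s.length), p.1 + 2 * Q px s = 2 * lam s.length + 2 * Q py s ∧
      p.2 + (Q px s + O gx s) = lam s.length + (Q py s + O gy s) := by
  have G1 := fun t h => (g_le t h).1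
  have G2 := fun t h => (g_le t h).2.1
  have G3 := fun t h => (g_le t h).2.2
  obtain ⟨A, a1, a2, a3⟩ := marked g1 G1 px s fun t ht => (Tr_ok t (hs t ht)).1
  obtain ⟨B, b1, b2, b3⟩ := marked g2 G2 py s fun t ht => (Tr_ok t (hs t ht)).2.1
  obtain ⟨C, c1, c2, c3⟩ := marked g3 G3 pz s fun t ht => (Tr_ok t (hs t ht)).2.2.1
  change _ = _ + O gx s at a3
  change _ = _ + O gy s at b3
  change _ = _ + O gz s at c3
  obtain ⟨l1, n1⟩ := W_len g1 G1 s.length
  obtain ⟨l2, n2⟩ := W_len g2 G2 s.length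
  obtain ⟨e1, e2⟩ := ap s hs
  obtain ⟨d1, d2, d3, -, -⟩ := bounds s hs
  have pA : A <+: word s.length := a1.trans (List.prefix_append _ _)
  have pB : W g1 s.length ++ B <+: word s.length :=
    (List.prefix_append_right_inj _).mpr (b1.trans (List.prefix_append _ _))
  have pC : W g1 s.length ++ (W g2 s.length ++ C) <+: word s.length :=
    (List.prefix_append_right_inj _).mpr ((List.prefix_append_right_inj _).mpr c1)
  have k1 := card_Ico _ _ _ pA pB (by simp only [List.length_append]; omega)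
  have k2 := card_Ico _ _ _ pB pC (by simp only [List.length_append]; omega)
  have k3 := pC.length_le
  simp only [List.length_append, List.count_append] at k1 k2 k3
  obtain ⟨l, hl⟩ : ∃ l, l + 2 * Q px s = 2 * lam s.length + 2 * Q py s :=
    ⟨2 * lam s.length + 2 * Q py s - 2 * Q px s, by omega⟩
  have m1 : (W g1 s.length).length + B.length = A.length + l := by omega
  have m2 : (W g1 s.length).length + ((W g2 s.length).length + C.length) = A.length + 2 * l := by omega
  rw [m1] at k1 k2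
  rw [m2] at k2 k3
  refine ⟨(l, ((Finset.Ico A.length (A.length + l)).filter
    (fun j => (word s.length).getD j false = true)).card), ⟨A.length, by simp only; omega, k3, rfl, ?_⟩, hl, ?_⟩
  · simp only; omega
  · simp only; omega

theorem many (k : ℕ) (h0 : 0 < lam k) : 79 ^ k ≤ (sq (word k)).ncard := by
  let L : (Fin k → Fin Tr.length) → List T3 := fun f => List.ofFn (fun i => Tr.get (f i))
  have hL : ∀ f, ∀ t ∈ L f, t ∈ Tr := by
    intro f t ht
    obtain ⟨i, rfl⟩ := List.mem_ofFn.mp ht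
    exact List.get_mem _ _
  have hl : ∀ f, (L f).length = k := fun f => List.length_ofFn
  have h : ∀ f, ∃ p ∈ sq (word k), p.1 + 2 * Q px (L f) = 2 * lam k + 2 * Q py (L f) ∧
      p.2 + (Q px (L f) + O gx (L f)) = lam k + (Q py (L f) + O gy (L f)) := by
    intro f
    have := mem_sq (L f) (hL f) (by rwa [hl])
    rwa [hl] at this
  choose P hP using h
  have hinj : Function.Injective P := by
    intro f f' e
    obtain ⟨-, a1, a2⟩ := hP f
    obtain ⟨-, b1, b2⟩ := hP f'
    rw [e] at a1 a2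
    have := inj (L f) (L f') (hL f) (hL f') (by rw [hl, hl]) (by omega) (by omega)
    funext i
    exact List.nodup_iff_injective_get.mp Tr_nodup (congrFun (List.ofFn_injective this) i)
  have := Set.ncard_le_ncard_of_injOn (s := Set.univ) P (fun f _ => (hP f).1) hinj.injOn (sq_finite _)
  simpa [Set.ncard_univ, Tr_len] using this

end Pool.Agent.H.MP_385527_co
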